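import Pool.Agent.helper92.RC.Spec

/-! # Row rc:FB -/

set_option autoImplicit false

namespace Pool.Agent.helper92.RC

open scoped commutatorElement

universe u

theorem FB_ker {F : Type u} [Group F] (P : Subgroup F) (χ : P →* Multiplicative ℤ) (c : F)
    (hc : c ∈ ⁅P, P⁆) : ∃ c' : P, (c' : F) = c ∧ χ c' = 1 := by
  have h : ⁅P, P⁆ ≤ χ.ker.map P.subtype := by
    rw [Subgroup.commutator_le]
    intro g1 h1 g2 h2
    refine ⟨⁅(⟨g1, h1⟩ : P), (⟨g2, h2⟩ : P)⁆, ?_, ?_⟩
    · change χ ⁅(⟨g1, h1⟩ : P), (⟨g2, h2⟩ : P)⁆ = 1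
      rw [map_commutatorElement, commutatorElement_eq_one_iff_mul_comm]
      exact mul_comm _ _
    · rw [map_commutatorElement]
      rfl
  obtain ⟨c', h1, h2⟩ := h hc
  exact ⟨c', h2, h1⟩

theorem FB : CYC_stmt.{u} → GEN_stmt.{u} → FB_stmt.{u} := by
  intro hCYC hGEN F _ _ P hP
  obtain ⟨x, y, χ, _, ψ, hx, _, _, _, hψx, hψy⟩ := hGEN F P hP
  refine ⟨((x ^ 6 : P) : F), ((⁅x, y⁆ : P) : F), (x ^ 6 : P).2, ?_, ?_, ?_⟩
  · have h : ((⁅x, y⁆ : P) : F) = ⁅(x : F), (y : F)⁆ := rfl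
    rw [h]
    exact Subgroup.commutator_mem_commutator x.2 y.2
  · intro w hw w' hw' heq
    have hc : w'⁻¹ * w ∈ ⁅P, P⁆ := mul_mem (inv_mem hw') hw
    obtain ⟨c, hcc, hχ⟩ := FB_ker P χ _ hc
    have hcomm : c * x ^ 6 = x ^ 6 * c := by
      apply Subtype.ext
      have h1 : ((c * x ^ 6 : P) : F) = w'⁻¹ * w * ((x ^ 6 : P) : F) := by
        rw [← hcc]; rfl
      have h2 : ((x ^ 6 * c : P) : F) = ((x ^ 6 : P) : F) * (w'⁻¹ * w) := by
        rw [← hcc]; rfl
      rw [h1, h2]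
      generalize ((x ^ 6 : P) : F) = β at heq ⊢
      rw [commutatorElement_def, commutatorElement_def] at heq
      have h3 : w * β⁻¹ * w⁻¹ = w' * β⁻¹ * w'⁻¹ := by
        have h4 := congrArg (fun z => β⁻¹ * z) heq
        simpa [mul_assoc] using h4
      have h5 : w'⁻¹ * w * β⁻¹ = β⁻¹ * (w'⁻¹ * w) := by
        have h6 := congrArg (fun z => w'⁻¹ * z * w) h3
        simpa [mul_assoc] using h6
      have h7 := congrArg (fun z => β * z * β) h5
      simp only [mul_assoc, inv_mul_cancel, mul_one, mul_inv_cancel_left] at h7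
      simp only [mul_assoc]
      exact h7.symm
    obtain ⟨v, s, t, hs, ht⟩ := hCYC P c (x ^ 6) hcomm
    have hχs : s * Multiplicative.toAdd (χ v) = 0 := by
      have h1 : χ c = (χ v) ^ s := by rw [hs, map_zpow]
      rw [hχ] at h1
      have h2 := congrArg Multiplicative.toAdd h1
      rw [toAdd_zpow, toAdd_one, smul_eq_mul] at h2
      exact h2.symm
    have hχt : t * Multiplicative.toAdd (χ v) = 6 := by
      have h1 : χ (x ^ 6) = (χ v) ^ t := by rw [ht, map_zpow]
      rw [map_pow, hx] at h1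
      have h2 := congrArg Multiplicative.toAdd h1
      rw [toAdd_zpow, toAdd_pow, toAdd_ofAdd, smul_eq_mul] at h2
      rw [← h2]
      rfl
    have hn : Multiplicative.toAdd (χ v) ≠ 0 := by
      intro h
      rw [h, mul_zero] at hχt
      omega
    have hs0 : s = 0 := by
      rcases mul_eq_zero.mp hχs with h | h
      · exact h
      · exact absurd h hn
    rw [hs0, zpow_zero] at hs
    rw [hs] at hcc
    have h8 : w'⁻¹ * w = 1 := hcc.symm
    exact (inv_mul_eq_one.mp h8).symm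
  · intro w hw w' hw' heq
    have h1 : ⁅x, y⁆ * ⁅x ^ 6, (⟨w, hw⟩ : P)⁆ = ⁅x ^ 6, (⟨w', hw'⟩ : P)⁆ := Subtype.ext heq
    have h2 := congrArg ψ h1
    rw [map_mul, map_commutatorElement, map_commutatorElement, map_commutatorElement, map_pow,
      hψx, hψy] at h2
    have h3 : (Equiv.swap (0 : Fin 3) 1) ^ 6 = 1 := by decide
    rw [h3, commutatorElement_one_left, commutatorElement_one_left, mul_one] at h2
    revert h2
    decide

end Pool.Agent.helper92.RC
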