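import Pool.Agent.helper92.RC.Spec

/-! # Row rc:QNO -/

set_option autoImplicit false

namespace Pool.Agent.helper92.RC

open scoped commutatorElement

universe u

/-- the piece given by a normal subgroup -/
def QNO_piece {G : Type u} [hG : Group G] (N : Subgroup G) (hN : N.Normal) (h : Cl G) :
    Piece (fun X hX => @Cl X hX) N where
  L := PUnit
  X := fun _ => G
  gX := fun _ => hG
  hX := fun _ => h
  M := N.comap (Pi.evalMonoidHom (fun _ : PUnit.{u + 1} => G) PUnit.unit)
  hM := hN.comap _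
  θ :=
    { toFun := fun x => ⟨x.1 PUnit.unit, x.2⟩
      map_one' := rfl
      map_mul' := fun _ _ => rfl }
  hθ := by
    refine ⟨?_⟩
    rintro n _ g
    refine ⟨⟨fun _ => ((g * n * g⁻¹ : N) : G), (g * n * g⁻¹).2⟩, ?_⟩
    rfl

theorem QNO : QPI_stmt.{u} → QNO_stmt.{u} := by
  intro hQPI G hG N hN h
  refine hQPI N ?_
  intro g
  refine ⟨QNO_piece N hN h, QNO_piece N hN h, ⟨fun _ => (g : G), g.2⟩, 1, ?_⟩
  rw [map_one, mul_one]
  rfl

end Pool.Agent.helper92.RC
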