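import Pool.Agent.helper92.RC.Spec

/-! # Row rc:QPI -/

set_option autoImplicit false

namespace Pool.Agent.helper92.RC

open scoped commutatorElement

universe u

/-- the same piece over another class -/
def QPI_piece {G : Type u} [Group G] (p : Piece (fun X hX => @Cl X hX) G) (α : Ordinal.{u})
    (h : ∀ l, ∃ β : Set.Iio α, Q β.1 (p.X l) (p.gX l)) :
    Piece (fun X hX => ∃ β : Set.Iio α, Q β.1 X hX) G where
  L := p.L
  X := p.X
  gX := p.gX
  hX := h
  M := p.M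
  hM := p.hM
  θ := p.θ
  hθ := p.hθ

theorem QPI : QPI_stmt.{u} := by
  intro G _ h
  choose p q x y hxy using h
  have hp : ∀ (g : G) (l : (p g).L), ∃ β : Ordinal.{u}, Q β ((p g).X l) ((p g).gX l) :=
    fun g l => (p g).hX l
  have hq : ∀ (g : G) (l : (q g).L), ∃ β : Ordinal.{u}, Q β ((q g).X l) ((q g).gX l) :=
    fun g l => (q g).hX l
  choose bp hbp using hp
  choose bq hbq using hq
  let f : (Σ g : G, (p g).L) ⊕ (Σ g : G, (q g).L) → Ordinal.{u} :=
    Sum.elim (fun i => Order.succ (bp i.1 i.2)) (fun i => Order.succ (bq i.1 i.2))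
  refine ⟨⨆ i, f i, (Q_iff _ G _).2 (Or.inr ?_)⟩
  intro g
  refine ⟨QPI_piece (p g) _ (fun l => ⟨⟨bp g l, ?_⟩, hbp g l⟩),
    QPI_piece (q g) _ (fun l => ⟨⟨bq g l, ?_⟩, hbq g l⟩), x g, y g, hxy g⟩
  · exact lt_of_lt_of_le (Order.lt_succ _) (Ordinal.le_iSup f (Sum.inl ⟨g, l⟩))
  · exact lt_of_lt_of_le (Order.lt_succ _) (Ordinal.le_iSup f (Sum.inr ⟨g, l⟩))

end Pool.Agent.helper92.RC
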